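import Pool.Agent.H677_SC.Basic

set_option autoImplicit false

open Finset

namespace Pool.Agent.Results.MP_0634a4_nt.TailRatioNotIntegral

/-- The `l`-sequence: `u_0 = 0`, `u_1 = 1`, `u_m = l u_{m-1} - u_{m-2}`. -/
def u (l : ℤ) : ℕ → ℤ
  | 0 => 0
  | 1 => 1
  | m + 2 => l * u l (m + 1) - u l m

/-- `T_{n,k}` for the `l`-sequence. -/
def T (l : ℤ) (n k : ℕ) : ℚ :=
  (∑ i ∈ Icc 1 n, (u l i : ℚ) ^ (3 * (4 * k - 3))) / ∑ i ∈ Icc 1 n, (u l i : ℚ) ^ 3

/-- Part (b) of Q1 is false: for `l = 2`, `T_{10,5}` is not an integer. -/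
theorem result : ¬ ∀ n k : ℕ, 1 ≤ n → 1 ≤ k → ∃ z : ℤ, T 2 n k = z := by
  intro h
  obtain ⟨z, hz⟩ := h 10 5 (by norm_num) (by norm_num)
  have hT : T 2 10 5 = 3653272102771764290724838842831601677788022986675 / 11 := by
    decide +kernel
  rw [hT] at hz
  have h2 : (3653272102771764290724838842831601677788022986675 : ℚ) = z * 11 := by
    rw [← hz]
    norm_num
  have h3 : (3653272102771764290724838842831601677788022986675 : ℤ) = z * 11 := by
    exact_mod_cast h2
  omega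

end Pool.Agent.Results.MP_0634a4_nt.TailRatioNotIntegral
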